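import Pool.Agent.Work.MP_0d14d1_co.Data

/-! The recursion. -/

set_option autoImplicit false

namespace Pool.Agent.Work.MP_0d14d1_co

/-- a map that moves only places below `m` -/
def Lo (m : ℕ) (g : ℕ → ℕ) : Prop := ∀ p, (p < m ∧ g p < m) ∨ (m ≤ p ∧ g p = p)

/-- the triangle with a trapezoid of three layers -/
def Gd (b : ℕ) : Prop := W (2 * (2 * b + 2)) (b * b + 3 * b) (Tri (2 * b + 2) ∘ Dt b)

/-- the reversal of an odd number of wires -/
def K1 (t : ℕ) : Prop := ∃ E, W (2 * t + 1) E (rv (2 * t + 1)) ∧ 3 * E ≤ 2 * (t * t) + 3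

/-- the reversal without four neighbouring wires -/
def K4 (h : ℕ) : Prop := ∃ E, W (2 * h + 4) E (kap h) ∧ 3 * E ≤ 2 * (h * h) + 3 * h + 6

theorem Lo.comm {m : ℕ} {f g : ℕ → ℕ} (hf : Lo m f)
    (hg : ∀ p, (p < m ∧ g p = p) ∨ (m ≤ p ∧ m ≤ g p)) (p : ℕ) : f (g p) = g (f p) := by
  rcases hg p with ⟨h1, h2⟩ | ⟨h1, h2⟩
  · have := hf p
    have := hg (f p)
    rw [h2]
    omega
  · have := hf p
    have := hf (g p)
    rw [show f p = p by omega]
    omega

theorem Lo.sh {m : ℕ} {f : ℕ → ℕ} (hf : Lo m f) (g : ℕ → ℕ) (p : ℕ) :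
    f (sh m g p) = sh m g (f p) :=
  hf.comm (fun p => by have := sh_s m g p; omega) p

theorem Lo_tau : Lo 17 tau := fun p => by
  have : ∀ p < 17, tau p < 17 := by decide +kernel
  by_cases h : p < 17
  · exact .inl ⟨h, this p h⟩
  · exact .inr ⟨by omega, if_neg h⟩

theorem Lo_Pl {n m : ℕ} (hn : 2 ≤ n) (h : 2 * n + 17 ≤ m) :
    Lo m (Pl n ∘ sh (2 * n) tau) := fun p => by
  have := sh_s (2 * n) tau p
  have := Lo_tau (p - 2 * n)
  have := Pl_s hn (sh (2 * n) tau p)
  rw [Function.comp_apply]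
  omega

theorem tail {q w o E n : ℕ} {f : ℕ → ℕ} (hq : 2 * q ≤ w) (hn : 2 ≤ n)
    (hm : 2 * n + 17 ≤ 2 * o + 2 * (w - q)) (hf : ∀ p, 2 * o + 2 * w ≤ p → f p = p)
    {k c s : ℕ} (h : chk (2 * o + 2 * w) k c s E f
      (sh (2 * o) (St q w) ∘ Pl n ∘ sh (2 * n) tau) = true) (d : ℕ) :
    ∃ u, W (2 * o + 2 * (w + d)) (E + q * d) u ∧
      ∀ p, f (u p) = sh (2 * o) (St q (w + d)) (Pl n (sh (2 * n) tau p)) := by
  have L := Lo_Pl hn hm
  obtain ⟨u, h1, h2⟩ := chk_W h hf fun p hp => by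
    have := L p
    have := sh_s (2 * o) (St q w) p
    have := St_s q w (p - 2 * o)
    rw [Function.comp_apply, show (Pl n ∘ sh (2 * n) tau) p = p by omega]
    omega
  refine ⟨_, (h1.mono (by omega)).comp ((((W_Rot q d).shift (w - q)).shift o).mono (by omega)),
    fun p => ?_⟩
  have e : sh (2 * o) (sh (2 * (w - q)) (Rot q d)) = sh (2 * o + 2 * (w - q)) (Rot q d) :=
    funext (sh_sh _ _ _)
  rw [Function.comp_apply, h2, Function.comp_apply, e, L.sh, ← e, ← sh_comp]
  exact congrFun (congrArg _ (funext (St_Rot hq d))) _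

theorem per (j r : ℕ) (hr : 36 ≤ r) :
    W (2 * (2 * (5 * j + 14) + r)) ((5 * j + 14) * (5 * j + 14 + r) + 5 * j + 19)
      (St (5 * j + 14) (2 * (5 * j + 14) + r) ∘ Pl (5 * j + 12) ∘ sh (2 * (5 * j + 12)) tau) := by
  induction j generalizing r with
  | zero =>
    obtain ⟨u, h1, h2⟩ := tail (o := 0) (q := 14) (w := 35) (n := 12) (by omega) (by omega)
      (by omega) (fun _ _ => rfl) dS (r - 7)
    refine (h1.mono (by omega)).cast (by omega) fun p => (h2 p).trans ?_
    rw [show 35 + (r - 7) = 2 * (5 * 0 + 14) + r by omega]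
    simp [sh]
  | succ j ih =>
    obtain ⟨u, h1, h2⟩ := tail (o := 2) (q := 5) (w := 17) (n := 5) (by omega) (by omega)
      (by omega) (fun p hp => by have := Lo_tau p; omega) dC (r - 7)
    refine (((ih (r + 10) (by omega)).mono (by omega)).comp
      ((h1.shift (5 * j + 12)).mono (by omega))).cast (by
        have : (5 * (j + 1) + 14) * (5 * (j + 1) + 14 + r) =
          (5 * j + 14) * (5 * j + 14 + (r + 10)) + 5 * r + 25 := by ring
        omega) fun p => ?_
    have e : tau ∘ u = sh (2 * 2) (St 5 (17 + (r - 7))) ∘ Pl 5 ∘ sh (2 * 5) tau := funext h2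
    have L : Lo (2 * (5 * j + 14)) (Pl (5 * j + 12)) := fun p => by
      have := Pl_s (n := 5 * j + 12) (by omega) p
      omega
    simp only [Function.comp_apply]
    rw [← sh_comp, e, sh_comp, sh_comp, sh_sh, sh_sh,
      show 2 * (5 * j + 12) + 2 * 2 = 2 * (5 * j + 14) by ring, L.sh, Pl_Pl (by omega) (by omega),
      show 17 + (r - 7) = r + 10 by omega, St_St (by omega),
      show 5 * (j + 1) + 14 = 5 * j + 14 + 5 by ring, show 5 * (j + 1) + 12 = 5 * j + 12 + 5 by ring,
      show 2 * (5 * j + 14 + 5) + r = 2 * (5 * j + 14) + (r + 10) by ring, mul_add 2 (5 * j + 12)]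

theorem Gd_per (j : ℕ) : Gd (5 * j + 31) := by
  obtain ⟨u, h1, h2⟩ := chk_W dE (fun p hp => by have := Lo_tau p; omega) fun p hp => by
    have := Dt_s (b := 19) (by omega) p
    have := sh_s 4 (Tri 36) p
    have := Tri_s 36 (p - 4)
    rw [Function.comp_apply, show Dt 19 p = p by omega]
    omega
  refine (((per j 36 le_rfl).mono (by omega)).comp
    ((h1.shift (5 * j + 12)).mono (by omega))).cast (by nlinarith) fun p => ?_
  have e : tau ∘ u = sh 4 (Tri 36) ∘ Dt 19 := funext h2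
  have L : Lo (2 * (5 * j + 14)) (Pl (5 * j + 12)) := fun p => by
    have := Pl_s (n := 5 * j + 12) (by omega) p
    omega
  simp only [Function.comp_apply]
  rw [← sh_comp, e, sh_comp, sh_sh, show 2 * (5 * j + 12) + 4 = 2 * (5 * j + 14) by ring, L.sh,
    Pl_Dt (by omega) (by omega), St_Tri,
    show 2 * (5 * j + 31) + 2 = 2 * (5 * j + 14) + 36 by ring, add_assoc]

theorem Gd_of {b k c : ℕ} (hb : 3 ≤ b) (h : chk (2 * (2 * b + 2)) k c I0 (b * b + 3 * b) id
    (Tri (2 * b + 2) ∘ Dt b) = true) : Gd b := by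
  obtain ⟨u, h1, h2⟩ := chk_W h (fun _ _ => rfl) fun p hp => by
    have := Dt_s hb p
    have := Tri_s (2 * b + 2) p
    rw [Function.comp_apply, show Dt b p = p by omega]
    omega
  exact h1.cast le_rfl h2

theorem Gd_fin {b : ℕ} (h1 : 12 ≤ b) (h2 : b ≤ 21) : Gd b := by
  interval_cases b
  exacts [Gd_of (by omega) dG12,
    Gd_of (by omega) dG13,
    Gd_of (by omega) dG14,
    Gd_of (by omega) dG15,
    Gd_of (by omega) dG16,
    Gd_of (by omega) dG17,
    Gd_of (by omega) dG18,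
    Gd_of (by omega) dG19,
    Gd_of (by omega) dG20,
    Gd_of (by omega) dG21]

theorem K1_of {t k c E : ℕ} (h : chk (2 * t + 1) k c I0 E id (rv (2 * t + 1)) = true)
    (hE : 3 * E ≤ 2 * (t * t) + 3) : K1 t := by
  obtain ⟨u, h1, h2⟩ := chk_W h (fun _ _ => rfl) fun p hp => if_neg (by omega)
  exact ⟨E, h1.cast le_rfl h2, hE⟩

theorem K4_of {h k c E : ℕ} (e : chk (2 * h + 4) k c I0 E id (kap h) = true)
    (hE : 2 ≤ h ∧ 3 * E ≤ 2 * (h * h) + 3 * h + 6) : K4 h := by
  obtain ⟨u, h1, h2⟩ := chk_W e (fun _ _ => rfl) fun p hp => by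
    have := Pl_s hE.1 p
    rw [kap, show rv (2 * h + 4) p = p from if_neg (by omega)]
    omega
  exact ⟨E, h1.cast le_rfl h2, hE.2⟩

theorem K4.k1 {h : ℕ} (hh : 2 ≤ h) (k : K4 h) : K1 (h + 3) := by
  obtain ⟨E, k, hE⟩ := k
  have w1 : W (2 * (h + 3) + 1) _ _ := ((W_Ly (a := 1) (m := h) (by omega)).comp
    (W.sw (i := 0) (by omega))).comp (W_cl (m := 2 * h + 3) (by omega))
  have w2 : W (2 * (h + 3) + 1) _ _ := ((W_Ly (a := 2) (m := h) (by omega)).comp
    (W.sw (i := 2) (by omega))).comp (W_cl (m := 2 * h + 5) (by omega))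
  have w3 : W (2 * (h + 3) + 1) _ _ := (W_Ly (a := 3) (m := h) (by omega)).comp
    (W_cr (a := 4) (m := 2 * h + 2) (by omega))
  have w4 : W (2 * (h + 3) + 1) _ _ := ((((k.shift 1).mono (by omega)).comp
    (W.sw (i := 1) (by omega))).comp (W.sw (i := 0) (by omega))).comp (W.sw (i := 2) (by omega))
  refine ⟨E + 3 * h + 5, (((w1.comp w2).comp w3).comp w4).cast (by omega) fun p => ?_,
    by nlinarith⟩
  simp only [Function.comp_apply, Nat.reduceMul]
  rw [k41 hh, show 2 * (h + 3) + 1 = 2 * h + 7 by ring]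

theorem K1.k4 {s : ℕ} (hs : 1 ≤ s) (k : K1 (s + 2)) : K4 (2 * s + 1) := by
  obtain ⟨E, k, hE⟩ := k
  have w0 : W (2 * 1) 0 (Tri 1 ∘ id) := (W.sw (i := 0) (by omega)).cast le_rfl fun p => by
    have := sw_s 0 p
    have := Tri_s 1 p
    rw [Function.comp_apply, id]
    omega
  have w1 : W (2 * (2 * s + 1) + 4) (s * (1 + s)) (sh 4 (Tri (2 * s + 1))) :=
    (((W_ext w0 s).shift 2).mono (by omega)).cast (by omega) fun p => by
      have : Tri (1 + 2 * s) ∘ sh (2 * s) id = Tri (2 * s + 1) := funext fun x => by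
        have := sh_s (2 * s) id x
        rw [Function.comp_apply, show sh (2 * s) id x = x by unfold id at *; omega, add_comm]
      rw [this]
  refine ⟨_, W.cancel (((w1.comp (W_Ly (a := (2 * s + 1 + 5) / 2) (m := (2 * s + 1) / 2)
    (by omega))).comp (k.mono (by omega))).cast le_rfl fun p => ?_) w1, by nlinarith⟩
  exact Tri_kap (h := 2 * s + 1) (by omega) p

theorem K4.k4 {b c h : ℕ} (hb : 2 ≤ b) (hc : 2 ≤ c) (gb : Gd (b + 1)) (gc : Gd (c + 1))
    (hh : h = b + c) (k : K4 h) : K4 (2 * h) := by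
  obtain ⟨E, k, hE⟩ := k
  have w : ∀ {b c : ℕ}, 2 ≤ b → Gd (c + 1) → h = b + c → W (2 * (2 * h) + 4) (h * h + c)
      (sh 4 (Tri (2 * h)) ∘ sh (2 * b) (Dt (c + 1))) := fun {b c} hb gc e => by
    obtain ⟨a, rfl⟩ := Nat.exists_eq_add_of_le hb
    refine (((W_ext gc a).shift 2).mono (by omega)).cast (by rw [e]; nlinarith) fun p => ?_
    rw [sh_comp, sh_sh, Function.comp_apply, show 2 * (c + 1) + 2 + 2 * a = 2 * h by omega,
      mul_add]
  have L : Lo (2 * h + 4) (sh (2 * b) (Dt (c + 1))) := fun p => by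
    have := sh_s (2 * b) (Dt (c + 1)) p
    have := Dt_s (b := c + 1) (by omega) (p - 2 * b)
    omega
  refine ⟨_, W.cancel ((((w hb gc hh).comp (W_Ly (a := (2 * h + 5) / 2) (m := 2 * h / 2)
    (by omega))).comp (k.mono (by omega))).cast le_rfl fun p => ?_) (w hc gb (by omega)), by
      have : 2 * h * (2 * h) = 4 * (h * h) := by ring
      omega⟩
  simp only [Function.comp_apply]
  rw [L.comm fun p => by have := Ly_s (2 * ((2 * h + 5) / 2)) (2 * h / 2) p; omega,
    ← Tri_kap (by omega), hh, Dt_kap hb hc]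

theorem K4_all (h : ℕ) (h1 : 3 ≤ h) (h2 : h ≠ 4) : K4 h := by
  induction h using Nat.strong_induction_on with
  | _ h ih =>
    rcases Nat.even_or_odd' h with ⟨s, rfl | rfl⟩
    · by_cases k : s ≤ 21
      · have : 3 ≤ s := by omega
        interval_cases s
        exacts [K4_of dK4_10 (by omega),
          K4_of dK4_12 (by omega),
          K4_of dK4_14 (by omega),
          K4_of dK4_16 (by omega),
          K4_of dK4_18 (by omega),
          K4_of dK4_20 (by omega),
          K4_of dK4_22 (by omega),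
          K4_of dK4_24 (by omega),
          K4_of dK4_26 (by omega),
          K4_of dK4_28 (by omega),
          K4_of dK4_30 (by omega),
          K4_of dK4_32 (by omega),
          K4_of dK4_34 (by omega),
          K4_of dK4_36 (by omega),
          K4_of dK4_38 (by omega),
          K4_of dK4_40 (by omega),
          K4_of dK4_42 (by omega),
          K4_of dK4_44 (by omega),
          K4_of dK4_46 (by omega)]
      · have := ih s (by omega) (by omega) (by omega)
        by_cases k2 : s ≤ 40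
        · exact K4.k4 (b := s / 2) (c := (s + 1) / 2) (by omega) (by omega)
            (Gd_fin (by omega) (by omega)) (Gd_fin (by omega) (by omega)) (by omega) this
        · exact K4.k4 (b := 5 * ((s - 41) / 5) + 30) (c := (s - 41) % 5 + 11) (by omega)
            (by omega) (Gd_per _) (Gd_fin (by omega) (by omega)) (by omega) this
    · by_cases k : s = 3
      · subst k
        exact K4_of dK4_11 (by omega)
      refine K1.k4 (by omega) ?_
      by_cases k1 : s = 1
      · subst k1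
        exact K1_of dK1_4 (by omega)
      by_cases k2 : s = 2
      · subst k2
        exact K1_of dK1_5 (by omega)
      by_cases k3 : s = 5
      · subst k3
        exact K1_of dK1_8 (by omega)
      have := (ih (s - 1) (by omega) (by omega) (by omega)).k1 (by omega)
      rwa [show s - 1 + 3 = s + 2 by omega] at this

theorem K1_all (t : ℕ) (h1 : 1 ≤ t) (h2 : t ≠ 5) : K1 t := by
  by_cases k : t ≤ 4
  · interval_cases t
    exacts [K1_of dK1_2 (by omega), K1_of dK1_3 (by omega), K1_of dK1_4 (by omega),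
      K1_of dK1_5 (by omega)]
  by_cases k3 : t = 7
  · subst k3
    exact K1_of dK1_8 (by omega)
  have := (K4_all (t - 3) (by omega) (by omega)).k1 (by omega)
  rwa [show t - 3 + 3 = t by omega] at this

theorem upper {n : ℕ} (h1 : 2 ≤ n) (h2 : n ≠ 6) :
    ∃ E, W (2 * n) E (rv (2 * n)) ∧ 3 * E ≤ n * (2 * n - 1) + 2 := by
  obtain ⟨t, rfl⟩ : ∃ t, n = t + 1 := ⟨n - 1, by omega⟩
  obtain ⟨E, k, hE⟩ := K1_all t (by omega) (by omega)
  refine ⟨t + E, ((W_cr (a := 0) (m := 2 * t + 1) (by omega)).comp (k.mono (by omega))).cast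
    (by omega) fun p => ?_, ?_⟩
  · have := rv_s (2 * t + 1) p
    have := cr_s 0 (2 * t + 1) (rv (2 * t + 1) p)
    have := rv_s (2 * (t + 1)) p
    rw [Function.comp_apply]
    omega
  · rw [show 2 * (t + 1) - 1 = 2 * t + 1 by omega]
    nlinarith

end Pool.Agent.Work.MP_0d14d1_co
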