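import Pool.Agent.Work.MP_0d14d1_co.H98.Defs
import Mathlib

-- merged part: Pool.Agent.Work.MP_0d14d1_co.H98.Lower
section
namespace Pool.Agent.Work.MP_0d14d1_co.H98

open Finset

abbrev Slot (n : ℕ) := Fin n × Fin 2

def cfg {n : ℕ} (σ : Slot n → Slot n) : Config n := fun j => {(σ (j, 0)).1, (σ (j, 1)).1}

lemma pair_step {α : Type*} [DecidableEq α] (f : Fin 2 → α) (a b : α)
    (ha : a ∈ ({f 0, f 1} : Multiset α)) :
    ∃ s : Fin 2, f s = a ∧ b ::ₘ ({f 0, f 1} : Multiset α).erase a =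
      {Function.update f s b 0, Function.update f s b 1} := by
  by_cases h0 : f 0 = a
  · refine ⟨0, h0, ?_⟩
    subst h0
    simp [Multiset.insert_eq_cons]
  · have h1 : f 1 = a := by
      simp only [Multiset.insert_eq_cons, Multiset.mem_cons, Multiset.mem_singleton] at ha
      rcases ha with h | h
      · exact absurd h.symm h0
      · exact h.symm
    refine ⟨1, h1, ?_⟩
    subst h1
    rw [Multiset.pair_comm (f 0) (f 1)]
    simp only [Multiset.insert_eq_cons, Multiset.erase_cons_head]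
    rw [Function.update_of_ne (by decide), Function.update_self]
    exact Multiset.pair_comm _ _

lemma lift_move {n : ℕ} (σ : Equiv.Perm (Slot n)) (c' : Config n) (h : Move (cfg σ) c') :
    ∃ u v : Slot n, v.1.val = u.1.val + 1 ∧ c' = cfg (σ * Equiv.swap u v : Equiv.Perm (Slot n)) := by
  obtain ⟨j, k, a, b, hjk, ha, hb, hj, hk, hi⟩ := h
  obtain ⟨s, hs, hs'⟩ := pair_step (fun s => (σ (j, s)).1) a b ha
  obtain ⟨t, ht, ht'⟩ := pair_step (fun s => (σ (k, s)).1) b a hb
  have hne : j ≠ k := by intro h; rw [h] at hjk; omega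
  refine ⟨(j, s), (k, t), hjk, funext fun i => ?_⟩
  by_cases hij : i = j
  · subst hij
    rw [hj]
    refine hs'.trans ?_
    have key : ∀ r : Fin 2, Function.update (fun s => (σ (i, s)).1) s b r =
        ((σ * Equiv.swap (i, s) (k, t) : Equiv.Perm (Slot n)) (i, r)).1 := by
      intro r
      by_cases hr : r = s
      · subst hr
        simp [← ht]
      · rw [Function.update_of_ne hr, Equiv.Perm.mul_apply, Equiv.swap_apply_of_ne_of_ne]
        · simpa using hr
        · simp [hne]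
    simp only [cfg, key]
  · by_cases hik : i = k
    · subst hik
      rw [hk]
      refine ht'.trans ?_
      have key : ∀ r : Fin 2, Function.update (fun s => (σ (i, s)).1) t a r =
          ((σ * Equiv.swap (j, s) (i, t) : Equiv.Perm (Slot n)) (i, r)).1 := by
        intro r
        by_cases hr : r = t
        · subst hr
          simp [← hs]
        · rw [Function.update_of_ne hr, Equiv.Perm.mul_apply, Equiv.swap_apply_of_ne_of_ne]
          · simp [hne.symm]
          · simpa using hr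
      simp only [cfg, key]
    · rw [hi i hij hik]
      have key : ∀ r : Fin 2, (σ * Equiv.swap (j, s) (k, t) : Equiv.Perm (Slot n)) (i, r)
          = σ (i, r) := by
        intro r
        rw [Equiv.Perm.mul_apply, Equiv.swap_apply_of_ne_of_ne]
        · simp [hij]
        · simp [hik]
      simp only [cfg, key]

/-- sign of the difference of the bins of two slots -/
def sg {n : ℕ} (u v : Slot n) : ℤ :=
  if u.1.val < v.1.val then -1 else if u.1.val = v.1.val then 0 else 1

lemma var_le {n : ℕ} (u v : Slot n) (h : v.1.val = u.1.val + 1) :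
    ∑ x : Slot n, ∑ y : Slot n, |sg (Equiv.swap u v x) (Equiv.swap u v y) - sg x y| ≤ 12 := by
  obtain ⟨j, s⟩ := u
  obtain ⟨k, t⟩ := v
  simp only at h
  have hne : j ≠ k := by intro h'; rw [h'] at h; omega
  have hsw : ∀ x : Slot n, ((Equiv.swap (j, s) (k, t) x).1.val : ℕ) =
      if x = (j, s) then k.val else if x = (k, t) then j.val else x.1.val := by
    intro x
    rw [Equiv.swap_apply_def]
    split_ifs <;> rfl
  have hz : ∀ x y : Slot n, (x.1 ≠ j ∧ x.1 ≠ k) ∨ (y.1 ≠ j ∧ y.1 ≠ k) →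
      |sg (Equiv.swap (j, s) (k, t) x) (Equiv.swap (j, s) (k, t) y) - sg x y| = 0 := by
    intro x y hxy
    rw [abs_eq_zero, sub_eq_zero]
    have hq : ∀ x : Slot n, ((Equiv.swap (j, s) (k, t) x).1.val = x.1.val) ∨
        ((x.1.val = j.val ∨ x.1.val = k.val) ∧ ((Equiv.swap (j, s) (k, t) x).1.val = j.val ∨
          (Equiv.swap (j, s) (k, t) x).1.val = k.val)) := by
      intro x
      rw [hsw]
      split_ifs with h1 h2
      · right; rw [h1]; simp
      · right; rw [h2]; simp
      · left; rfl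
    have hx := hq x
    have hy := hq y
    simp only [ne_eq, Fin.ext_iff] at hxy
    simp only [sg]
    split_ifs <;> omega
  let S : Finset (Slot n) := {(j, 0), (j, 1), (k, 0), (k, 1)}
  have hS : ∀ x : Slot n, x ∉ S → x.1 ≠ j ∧ x.1 ≠ k := by
    rintro ⟨i, r⟩ hx
    simp only [S, mem_insert, mem_singleton, Prod.mk.injEq, not_or] at hx
    constructor <;> intro h' <;> simp only at h' <;> fin_cases r <;> simp_all
  rw [← Finset.sum_subset (subset_univ S) (fun x _ hx => Finset.sum_eq_zero fun y _ =>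
    hz x y (Or.inl (hS x hx)))]
  rw [Finset.sum_congr rfl (fun x _ => (Finset.sum_subset (subset_univ S)
    (fun y _ hy => hz x y (Or.inr (hS y hy)))).symm)]
  have hs : ∀ f : Slot n → ℤ, ∑ x ∈ S, f x = f (j, 0) + f (j, 1) + f (k, 0) + f (k, 1) := by
    intro f
    simp only [S]
    rw [sum_insert (by simp [hne]), sum_insert (by simp [hne]), sum_insert (by simp),
      sum_singleton]
    ring
  simp only [hs, sg, hsw]
  have h1 : j.val < k.val := by omega
  have h2 : ¬ k.val < j.val := by omega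
  have h3 : ¬ k.val = j.val := by omega
  fin_cases s <;> fin_cases t <;> simp [hne, hne.symm, h1, h2, h3]

lemma tv_le (f : ℕ → ℤ) (a b : ℕ) (hab : a ≤ b) :
    |f b - f a| ≤ ∑ s ∈ Ico a b, |f (s + 1) - f s| := by
  rw [← Finset.sum_Ico_sub f hab]
  exact Finset.abs_sum_le_sum_abs _ _

theorem lower {n t : ℕ} (hn : 2 ≤ n) (h : SortableIn n t) : n * (2 * n - 1) ≤ 3 * t := by
  classical
  obtain ⟨c, h0, ht, hm⟩ := h
  let σ0 : Equiv.Perm (Slot n) := Equiv.prodCongr Fin.revPerm (Equiv.refl _)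
  let σ : ℕ → Equiv.Perm (Slot n) := fun s => Nat.rec σ0 (fun s τ =>
    if h : ∃ p : Slot n × Slot n, p.2.1.val = p.1.1.val + 1 ∧
      c (s + 1) = cfg (τ * Equiv.swap p.1 p.2 : Equiv.Perm (Slot n)) then
      τ * Equiv.swap h.choose.1 h.choose.2 else τ) s
  have hσ : ∀ s, c s = cfg (σ s) → s < t → c (s + 1) = cfg (σ (s + 1)) ∧
      ∃ u v : Slot n, v.1.val = u.1.val + 1 ∧ σ (s + 1) = σ s * Equiv.swap u v := by
    intro s hs hst
    have h1 := hm s hst
    rw [hs] at h1
    obtain ⟨u, v, huv, h2⟩ := lift_move _ _ h1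
    have hex : ∃ p : Slot n × Slot n, p.2.1.val = p.1.1.val + 1 ∧
      c (s + 1) = cfg (σ s * Equiv.swap p.1 p.2 : Equiv.Perm (Slot n)) := ⟨(u, v), huv, h2⟩
    have e : σ (s + 1) = σ s * Equiv.swap hex.choose.1 hex.choose.2 := dif_pos hex
    exact ⟨e ▸ hex.choose_spec.2, _, _, hex.choose_spec.1, e⟩
  have hc : ∀ s, s ≤ t → c s = cfg (σ s) := by
    intro s
    induction s with
    | zero => intro _; rw [h0]; rfl
    | succ s ih => intro hs; exact (hσ s (ih (by omega)) (by omega)).1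
  -- positions of balls
  let P : ℕ → Slot n → Slot n := fun s x => (σ s).symm x
  have hP : ∀ s < t, ∃ u v : Slot n, v.1.val = u.1.val + 1 ∧
      ∀ x, P (s + 1) x = Equiv.swap u v (P s x) := by
    intro s hs
    obtain ⟨u, v, huv, e⟩ := (hσ s (hc s hs.le) hs).2
    refine ⟨u, v, huv, fun x => ?_⟩
    simp only [P, e]
    rw [Equiv.symm_apply_eq]
    simp
  have hP0 : ∀ x, (P 0 x).1 = x.1.rev := fun x => rfl
  have hPt : ∀ x, (P t x).1 = x.1 := by
    intro x
    have h1 := congrFun ((hc t le_rfl).symm.trans ht) (P t x).1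
    have h2 : x.1 ∈ cfg (σ t) (P t x).1 := by
      have h3 : σ t ((P t x).1, (P t x).2) = x := (σ t).apply_symm_apply x
      simp only [cfg, Multiset.insert_eq_cons, Multiset.mem_cons, Multiset.mem_singleton]
      rcases (by decide : ∀ r : Fin 2, r = 0 ∨ r = 1) (P t x).2 with h4 | h4 <;> rw [h4] at h3
      · left; rw [h3]
      · right; rw [h3]
    rw [h1] at h2
    simp only [sorted, Multiset.insert_eq_cons, Multiset.mem_cons, Multiset.mem_singleton,
      or_self] at h2
    exact h2.symm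
  have hinj : ∀ s, Function.Injective (P s) := fun s => (σ s).symm.injective
  have hup : ∑ s ∈ Ico 0 t, ∑ x : Slot n, ∑ y : Slot n,
      |sg (P (s + 1) x) (P (s + 1) y) - sg (P s x) (P s y)| ≤ 12 * t := by
    have : ∀ s ∈ Ico 0 t, ∑ x : Slot n, ∑ y : Slot n,
      |sg (P (s + 1) x) (P (s + 1) y) - sg (P s x) (P s y)| ≤ 12 := by
      intro s hs
      obtain ⟨u, v, huv, e⟩ := hP s (mem_Ico.1 hs).2
      simp only [e]
      refine le_trans (le_of_eq ?_) (var_le u v huv)
      rw [← Equiv.sum_comp (σ s).symm (fun x => ∑ y, |sg (Equiv.swap u v x)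
        (Equiv.swap u v y) - sg x y|)]
      refine Finset.sum_congr rfl fun x _ => ?_
      rw [← Equiv.sum_comp (σ s).symm (fun y => |sg (Equiv.swap u v ((σ s).symm x))
        (Equiv.swap u v y) - sg ((σ s).symm x) y|)]
    refine (Finset.sum_le_card_nsmul _ _ _ this).trans ?_
    simp [mul_comm]
  have hlow : ∀ x y : Slot n, x ≠ y → 2 ≤ ∑ s ∈ Ico 0 t,
      |sg (P (s + 1) x) (P (s + 1) y) - sg (P s x) (P s y)| := by
    intro x y hxy
    have hx := x.1.isLt
    have hy := y.1.isLt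
    by_cases hl : x.1 = y.1
    · have hsep : ∃ s ≤ t, (P s x).1 ≠ (P s y).1 := by
        by_contra hcon
        push Not at hcon
        have hconst : ∀ s ≤ t, (P s x).1 = x.1.rev := by
          intro s
          induction s with
          | zero => intro _; rfl
          | succ s ih =>
            intro hs
            rw [← ih (by omega)]
            obtain ⟨u, v, huv, e⟩ := hP s (by omega)
            have h1 := hcon s (by omega)
            have h2 := hcon (s + 1) hs
            have h3 : P s x ≠ P s y := fun h => hxy (hinj s h)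
            rw [e, e] at h2
            rw [e]
            rw [Equiv.swap_apply_def] at h2 ⊢
            rw [Equiv.swap_apply_def] at h2
            simp only [Fin.ext_iff] at h1 h2 ⊢
            split_ifs at h2 ⊢ <;> simp_all
        have hmid : x.1.val = n - (x.1.val + 1) := by
          have := (hPt x).symm.trans (hconst t le_rfl)
          rw [Fin.ext_iff, Fin.val_rev] at this
          exact this
        let z : Slot n := (⟨n - 1, by omega⟩, 0)
        have hz : ∀ s ≤ t, (P s z).1.val ≠ x.1.val := by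
          intro s hs hz
          have e1 : (P s z).1 = (P s x).1 := by
            rw [hconst s hs, Fin.ext_iff, Fin.val_rev]; omega
          have e2 := hcon s hs
          have n1 : P s z ≠ P s x := fun h => by
            have := congrArg (fun w : Slot n => w.1.val) (hinj s h)
            simp only [z] at this; omega
          have n2 : P s z ≠ P s y := fun h => by
            have := congrArg (fun w : Slot n => w.1.val) (hinj s h)
            simp only [z, ← hl] at this; omega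
          have n3 : P s x ≠ P s y := fun h => hxy (hinj s h)
          rw [Ne, Prod.ext_iff] at n1 n2 n3
          rw [← e2, e1] at n2
          rw [e1] at n1
          rw [e2] at n3
          simp only [true_and, Fin.ext_iff] at n1 n2 n3
          have := (P s z).2.isLt
          have := (P s x).2.isLt
          have := (P s y).2.isLt
          omega
        have hz2 : ∀ s ≤ t, (P s z).1.val < x.1.val := by
          intro s
          induction s with
          | zero =>
            intro _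
            rw [hP0, Fin.val_rev]
            simp only [z]; omega
          | succ s ih =>
            intro hs
            have h1 := ih (by omega)
            have h2 := hz (s + 1) hs
            obtain ⟨u, v, huv, e⟩ := hP s (by omega)
            rw [e, Equiv.swap_apply_def] at h2 ⊢
            split_ifs at h2 ⊢ with h3 h4
            · rw [h3] at h1; omega
            · rw [h4] at h1; omega
            · exact h1
        have := hz2 t le_rfl
        rw [hPt] at this
        simp only [z] at this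
        omega
      obtain ⟨s, hs, hne⟩ := hsep
      rw [← Finset.sum_Ico_consecutive _ (Nat.zero_le s) hs]
      have h1 := tv_le (fun s => sg (P s x) (P s y)) 0 s (Nat.zero_le s)
      have h2 := tv_le (fun s => sg (P s x) (P s y)) s t hs
      have e0 : sg (P 0 x) (P 0 y) = 0 := by simp [sg, hP0, hl]
      have et : sg (P t x) (P t y) = 0 := by simp [sg, hPt, hl]
      have es : |sg (P s x) (P s y)| = 1 := by
        rw [Ne, Fin.ext_iff] at hne
        simp only [sg]; split_ifs <;> simp_all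
      simp only [e0, et, sub_zero, zero_sub, abs_neg, es] at h1 h2
      linarith
    · refine le_trans (le_of_eq ?_) (tv_le (fun s => sg (P s x) (P s y)) 0 t (Nat.zero_le t))
      rw [Fin.ext_iff] at hl
      simp only [sg, hP0, hPt, Fin.val_rev]
      split_ifs <;> first | omega | simp
  have hsum : ∑ x : Slot n, ∑ y : Slot n, (if x = y then 0 else 2 : ℤ) ≤ 12 * t := by
    refine le_trans ?_ hup
    rw [Finset.sum_comm' (t' := univ) (s' := fun _ => Ico 0 t) (by simp)]
    refine Finset.sum_le_sum fun x _ => ?_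
    rw [Finset.sum_comm' (t' := univ) (s' := fun _ => Ico 0 t) (by simp)]
    refine Finset.sum_le_sum fun y _ => ?_
    split_ifs with h
    · exact Finset.sum_nonneg fun _ _ => abs_nonneg _
    · exact hlow x y h
  have hcount : ∀ x : Slot n, ∑ y : Slot n, (if x = y then 0 else 2 : ℤ) = 2 * (2 * n - 1) := by
    intro x
    have : ∀ y : Slot n, (if x = y then 0 else 2 : ℤ) = 2 - if x = y then 2 else 0 := by
      intro y; split_ifs <;> simp
    simp only [this, Finset.sum_sub_distrib, Finset.sum_ite_eq, mem_univ, if_true,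
      Finset.sum_const, Finset.card_univ, Fintype.card_prod, Fintype.card_fin]
    simp; ring
  simp only [hcount, Finset.sum_const, Finset.card_univ, Fintype.card_prod,
    Fintype.card_fin, nsmul_eq_mul] at hsum
  zify [show 1 ≤ 2 * n by omega]
  push_cast at hsum
  nlinarith

end Pool.Agent.Work.MP_0d14d1_co.H98
end

-- merged part: Pool.Agent.Work.MP_0d14d1_co.H98.Word
section
namespace Pool.Agent.Work.MP_0d14d1_co.H98

/-- the transposition of the positions `j`, `j + 1` -/
def sw (j p : ℤ) : ℤ := if p = j then j + 1 else if p = j + 1 then j else p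

/-- final position of the wire starting at position `p` -/
def act : List ℤ → ℤ → ℤ
  | [], p => p
  | j :: w, p => act w (sw j p)

/-- number of even letters -/
def cost : List ℤ → ℕ
  | [] => 0
  | j :: w => cost w + if j % 2 = 0 then 1 else 0

@[simp] lemma act_nil (p : ℤ) : act [] p = p := rfl
@[simp] lemma act_cons (j : ℤ) (w : List ℤ) (p : ℤ) : act (j :: w) p = act w (sw j p) := rfl
lemma act_append (u v : List ℤ) (p : ℤ) : act (u ++ v) p = act v (act u p) := by
  induction u generalizing p with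
  | nil => rfl
  | cons j u ih => simp [ih]

@[simp] lemma cost_nil : cost [] = 0 := rfl
lemma cost_cons (j : ℤ) (w : List ℤ) : cost (j :: w) = cost w + if j % 2 = 0 then 1 else 0 := rfl
lemma cost_append (u v : List ℤ) : cost (u ++ v) = cost u + cost v := by
  induction u with
  | nil => simp
  | cons j u ih => simp only [List.cons_append, cost_cons, ih]; omega

lemma sw_sw (j p : ℤ) : sw j (sw j p) = p := by
  unfold sw; split_ifs <;> omega

lemma act_inj (w : List ℤ) : Function.Injective (act w) := by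
  induction w with
  | nil => exact fun _ _ h => h
  | cons j w ih =>
    intro p q h
    have := ih h
    rw [← sw_sw j p, this, sw_sw]

/-- all letters in `[a, b]` -/
def Within (a b : ℤ) (w : List ℤ) : Prop := ∀ j ∈ w, a ≤ j ∧ j ≤ b

lemma Within.append {a b : ℤ} {u v : List ℤ} (hu : Within a b u) (hv : Within a b v) :
    Within a b (u ++ v) := by
  intro j hj
  rcases List.mem_append.1 hj with h | h
  · exact hu j h
  · exact hv j h

lemma Within.mono {a b a' b' : ℤ} {u : List ℤ} (hu : Within a b u) (ha : a' ≤ a) (hb : b ≤ b') :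
    Within a' b' u := fun j hj => ⟨ha.trans (hu j hj).1, (hu j hj).2.trans hb⟩

lemma within_cons {a b j : ℤ} {u : List ℤ} : Within a b (j :: u) ↔ (a ≤ j ∧ j ≤ b) ∧ Within a b u := by
  simp [Within]

lemma within_nil (a b : ℤ) : Within a b [] := by simp [Within]

lemma Within.act_out {a b : ℤ} {w : List ℤ} (h : Within a b w) {p : ℤ} (hp : p < a ∨ b + 1 < p) :
    act w p = p := by
  induction w with
  | nil => rfl
  | cons j w ih =>
    rw [within_cons] at h
    rw [act_cons, show sw j p = p by unfold sw; split_ifs <;> omega, ih h.2]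

lemma Within.act_in {a b : ℤ} {w : List ℤ} (h : Within a b w) {p : ℤ} (hp : a ≤ p ∧ p ≤ b + 1) :
    a ≤ act w p ∧ act w p ≤ b + 1 := by
  induction w generalizing p with
  | nil => exact hp
  | cons j w ih =>
    rw [within_cons] at h
    exact ih h.2 (by unfold sw; split_ifs <;> omega)

/-- `w` reverses the positions `1, …, m` -/
def Sorts (m : ℤ) (w : List ℤ) : Prop :=
  Within 1 (m - 1) w ∧ ∀ p, 1 ≤ p → p ≤ m → act w p = m + 1 - p

/-- the configuration of bins read off a labelling of the positions `1, …, 2 n` -/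
def bins {n : ℕ} (a : ℤ → Fin n) : Config n := fun j => {a (2 * j.val + 1), a (2 * j.val + 2)}

lemma bins_odd {n : ℕ} (a : ℤ → Fin n) (j : ℤ) (hj : j % 2 ≠ 0) : bins (a ∘ sw j) = bins a := by
  funext i
  simp only [bins, Function.comp]
  by_cases h : 2 * (i.val : ℤ) + 1 = j
  · rw [show sw j (2 * i.val + 1) = 2 * i.val + 2 by unfold sw; split_ifs <;> omega,
      show sw j (2 * i.val + 2) = 2 * i.val + 1 by unfold sw; split_ifs <;> omega]
    exact Multiset.pair_comm _ _
  · rw [show sw j (2 * i.val + 1) = 2 * i.val + 1 by unfold sw; split_ifs <;> omega,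
      show sw j (2 * i.val + 2) = 2 * i.val + 2 by unfold sw; split_ifs <;> omega]

lemma bins_even {n : ℕ} (a : ℤ → Fin n) (j : ℤ) (hj : j % 2 = 0) (h1 : 1 ≤ j) (h2 : j ≤ 2 * n - 1) :
    Move (bins a) (bins (a ∘ sw j)) := by
  obtain ⟨i, rfl⟩ : ∃ i : ℕ, j = 2 * i + 2 := ⟨(j / 2 - 1).toNat, by omega⟩
  refine ⟨⟨i, by omega⟩, ⟨i + 1, by omega⟩, a (2 * i + 2), a (2 * i + 3), rfl, by simp [bins],
    ?_, ?_, ?_, ?_⟩
  · simp only [bins]; push_cast
    rw [show 2 * ((i : ℤ) + 1) + 1 = 2 * i + 3 by ring]; simp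
  · simp only [bins, Function.comp]
    rw [show sw (2 * i + 2) (2 * i + 1) = 2 * i + 1 by unfold sw; split_ifs <;> omega,
      show sw (2 * i + 2) (2 * i + 2) = 2 * i + 3 by unfold sw; split_ifs <;> omega,
      Multiset.pair_comm (a (2 * i + 1)) (a (2 * i + 2))]
    simp only [Multiset.insert_eq_cons, Multiset.erase_cons_head]
    exact Multiset.pair_comm _ _
  · simp only [bins, Function.comp]; push_cast
    rw [show sw (2 * i + 2) (2 * (i + 1) + 1) = 2 * i + 2 by unfold sw; split_ifs <;> omega,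
      show sw (2 * i + 2) (2 * (i + 1) + 2) = 2 * (i + 1) + 2 by unfold sw; split_ifs <;> omega,
      show 2 * ((i : ℤ) + 1) + 1 = 2 * i + 3 by ring]
    simp only [Multiset.insert_eq_cons, Multiset.erase_cons_head]
  · intro k hk1 hk2
    simp only [ne_eq, Fin.ext_iff] at hk1 hk2
    simp only [bins, Function.comp]
    rw [show sw (2 * i + 2) (2 * k.val + 1) = 2 * k.val + 1 by unfold sw; split_ifs <;> omega,
      show sw (2 * i + 2) (2 * k.val + 2) = 2 * k.val + 2 by unfold sw; split_ifs <;> omega]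

lemma reach_word {n : ℕ} (w : List ℤ) (hw : Within 1 (2 * n - 1) w) (b : ℤ → Fin n) :
    ∃ c : ℕ → Config n, c 0 = bins (b ∘ act w) ∧ c (cost w) = bins b ∧
      ∀ s < cost w, Move (c s) (c (s + 1)) := by
  induction w with
  | nil => exact ⟨fun _ => bins b, rfl, rfl, fun s hs => absurd hs (by simp)⟩
  | cons j w ih =>
    rw [within_cons] at hw
    obtain ⟨c, h0, h1, h2⟩ := ih hw.2
    have e : b ∘ act (j :: w) = (b ∘ act w) ∘ sw j := rfl
    by_cases hj : j % 2 = 0
    · refine ⟨fun s => Nat.casesOn s (bins (b ∘ act (j :: w))) c, rfl, ?_, ?_⟩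
      · rw [cost_cons, if_pos hj]; exact h1
      · rw [cost_cons, if_pos hj]
        rintro (_ | s) hs
        · have := bins_even (b ∘ act (j :: w)) j hj hw.1.1 hw.1.2
          rw [show (b ∘ act (j :: w)) ∘ sw j = b ∘ act w from
            funext fun p => by simp [sw_sw], ← h0] at this
          exact this
        · exact h2 s (by omega)
    · refine ⟨c, ?_, ?_, ?_⟩
      · rw [e, bins_odd _ _ hj, h0]
      · rw [cost_cons, if_neg hj]; exact h1
      · rw [cost_cons, if_neg hj]; exact h2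

theorem sortable_of_sorts {n : ℕ} (hn : 1 ≤ n) {w : List ℤ} (h : Sorts (2 * n) w) :
    SortableIn n (cost w) := by
  let b : ℤ → Fin n := fun p => ⟨min ((p - 1) / 2).toNat (n - 1), by omega⟩
  obtain ⟨c, h0, h1, h2⟩ := reach_word w h.1 b
  refine ⟨c, h0.trans ?_, h1.trans ?_, h2⟩
  · funext j
    have := j.isLt
    simp only [bins, start, Function.comp]
    rw [h.2 _ (by omega) (by omega), h.2 _ (by omega) (by omega)]
    have e1 : b (2 * n + 1 - (2 * j.val + 1)) = j.rev := by
      rw [Fin.ext_iff, Fin.val_rev]; simp only [b]; omega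
    have e2 : b (2 * n + 1 - (2 * j.val + 2)) = j.rev := by
      rw [Fin.ext_iff, Fin.val_rev]; simp only [b]; omega
    rw [e1, e2]
  · funext j
    have := j.isLt
    simp only [bins, sorted]
    have e1 : b (2 * j.val + 1) = j := by rw [Fin.ext_iff]; simp only [b]; omega
    have e2 : b (2 * j.val + 2) = j := by rw [Fin.ext_iff]; simp only [b]; omega
    rw [e1, e2]

/-- An optimal reduced word on `2 n` wires. -/
def Opt (n : ℕ) : Prop :=
  ∃ w, Sorts (2 * n) w ∧ w.length = n * (2 * n - 1) ∧ 3 * cost w ≤ n * (2 * n - 1) + 2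

theorem isLeast_of_opt {n : ℕ} (hn : 2 ≤ n) (h : Opt n) :
    IsLeast {t | SortableIn n t} ((n * (2 * n - 1) + 2) / 3) := by
  obtain ⟨w, h1, -, h3⟩ := h
  have h4 := sortable_of_sorts (by omega) h1
  have h5 := lower hn h4
  refine ⟨?_, fun t ht => ?_⟩
  · rw [show (n * (2 * n - 1) + 2) / 3 = cost w by omega]; exact h4
  · have := lower hn ht
    omega

end Pool.Agent.Work.MP_0d14d1_co.H98
end

-- merged part: Pool.Agent.Work.MP_0d14d1_co.Word
section
/-! Words in adjacent transpositions; the letters with odd index cost one. -/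

set_option autoImplicit false

namespace Pool.Agent.Work.MP_0d14d1_co

/-- the transposition of the places `i` and `i + 1` -/
def sw (i p : ℕ) : ℕ := if p = i then i + 1 else if p = i + 1 then i else p

/-- `W N E f`: the map `f` of places is a product of adjacent transpositions of places below `N`,
at most `E` of which have odd index -/
inductive W (N : ℕ) : ℕ → (ℕ → ℕ) → Prop
  | id (E : ℕ) : W N E id
  | step {E : ℕ} {f : ℕ → ℕ} (i : ℕ) : W N E f → i + 1 < N → W N (E + i % 2) (f ∘ sw i)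

/-- the reversal of the first `n` places -/
def rv (n p : ℕ) : ℕ := if p < n then n - 1 - p else p

/-- a map moved `d` places to the right -/
def sh (d : ℕ) (f : ℕ → ℕ) (p : ℕ) : ℕ := if p < d then p else f (p - d) + d

theorem sw_sw (i : ℕ) : sw i ∘ sw i = id := by
  funext p
  simp only [Function.comp, sw, id]
  split_ifs <;> omega

theorem W.cast {N E E' : ℕ} {f g : ℕ → ℕ} (h : W N E f) (e : E ≤ E') (hf : ∀ p, f p = g p) :
    W N E' g := by
  obtain rfl : f = g := funext hf
  clear hf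
  induction h generalizing E' with
  | id E => exact .id _
  | @step E f i _ hi ih =>
    have := (ih (E' := E' - i % 2) (by omega)).step i hi
    rwa [Nat.sub_add_cancel (by omega)] at this

theorem W.mono {N M E : ℕ} {f : ℕ → ℕ} (h : W N E f) (e : N ≤ M) : W M E f := by
  induction h with
  | id E => exact .id _
  | step i _ hi ih => exact ih.step i (by omega)

theorem W.comp {N a b : ℕ} {f g : ℕ → ℕ} (h : W N a f) (k : W N b g) : W N (a + b) (f ∘ g) := by
  induction k with
  | id E => exact h.cast (by omega) fun _ => rfl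
  | step i _ hi ih => exact (ih.step i hi).cast (by omega) fun _ => rfl

theorem W.cancel {N a b : ℕ} {k y : ℕ → ℕ} (h : W N a (k ∘ y)) (hy : W N b y) :
    W N (a + b) k := by
  induction hy generalizing a with
  | id E => exact h.cast (by omega) fun _ => rfl
  | @step E f i _ hi ih =>
    have e : (k ∘ f ∘ sw i) ∘ sw i = k ∘ f := by
      rw [Function.comp_assoc, Function.comp_assoc, sw_sw]
      rfl
    exact (ih (e ▸ h.step i hi)).cast (by omega) fun _ => rfl

theorem sh_comp (d : ℕ) (f g : ℕ → ℕ) (p : ℕ) : sh d (f ∘ g) p = sh d f (sh d g p) := by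
  by_cases h : p < d <;> simp [sh, h]

theorem sh_sh (a b : ℕ) (f : ℕ → ℕ) (p : ℕ) : sh a (sh b f) p = sh (a + b) f p := by
  simp only [sh]
  split_ifs <;> try omega
  rw [Nat.sub_sub, add_assoc, add_comm b]

theorem W.shift {N E : ℕ} {f : ℕ → ℕ} (h : W N E f) (d : ℕ) : W (2 * d + N) E (sh (2 * d) f) := by
  induction h with
  | id E => exact (W.id E).cast le_rfl fun p => by simp only [sh, _root_.id]; split_ifs <;> omega
  | step i _ hi ih =>
    refine (ih.step (2 * d + i) (by omega)).cast (by omega) fun p => ?_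
    rw [sh_comp, Function.comp_apply]
    refine congrArg _ ?_
    simp only [sh, sw]
    split_ifs <;> omega

theorem W.sw {N i : ℕ} (h : i + 1 < N) : W N (i % 2) (sw i) :=
  ((W.id 0).step i h).cast (by omega) fun _ => rfl

end Pool.Agent.Work.MP_0d14d1_co
end

-- merged part: Pool.Agent.Work.MP_0d14d1_co.H98.Bridge
section
namespace Pool.Agent.Work.MP_0d14d1_co.H98

lemma word_of_W {N E : ℕ} {f : ℕ → ℕ} (h : W N E f) :
    ∃ w : List ℤ, Within 1 (N - 1) w ∧ cost w ≤ E ∧ ∀ p : ℕ, act w (p + 1) = f p + 1 := by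
  induction h with
  | id E => exact ⟨[], within_nil _ _, Nat.zero_le _, fun _ => rfl⟩
  | @step E f i _ hi ih =>
    obtain ⟨w, h1, h2, h3⟩ := ih
    refine ⟨(i + 1) :: w, within_cons.2 ⟨by omega, h1⟩, ?_, fun p => ?_⟩
    · rw [cost_cons]; split_ifs <;> omega
    · rw [act_cons, Function.comp_apply, ← h3]
      refine congrArg _ ?_
      unfold H98.sw MP_0d14d1_co.sw
      split_ifs <;> push_cast <;> omega

/-- A word for the reversal with at most `E` costly letters gives a sorting in at most `E`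
moves. -/
theorem bridge {n E : ℕ} (hn : 1 ≤ n) (h : W (2 * n) E (rv (2 * n))) :
    ∃ t ≤ E, SortableIn n t := by
  obtain ⟨w, h1, h2, h3⟩ := word_of_W h
  refine ⟨cost w, h2, sortable_of_sorts hn ⟨by simpa using h1, fun p hp hq => ?_⟩⟩
  obtain ⟨q, rfl⟩ : ∃ q : ℕ, p = q + 1 := ⟨(p - 1).toNat, by omega⟩
  rw [h3, rv, if_pos (by omega)]
  omega

theorem isLeast_of_W {n : ℕ} (hn : 2 ≤ n)
    (h : ∃ E, W (2 * n) E (rv (2 * n)) ∧ 3 * E ≤ n * (2 * n - 1) + 2) :
    IsLeast {t | SortableIn n t} ((n * (2 * n - 1) + 2) / 3) := by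
  obtain ⟨E, h1, h3⟩ := h
  obtain ⟨t, h2, h4⟩ := bridge (by omega) h1
  have h5 := lower hn h4
  refine ⟨?_, fun s hs => ?_⟩
  · rw [show (n * (2 * n - 1) + 2) / 3 = t by omega]; exact h4
  · have := lower hn hs
    omega

end Pool.Agent.Work.MP_0d14d1_co.H98
end

-- merged part: Pool.Agent.Work.MP_0d14d1_co.Chk
section
/-! A checker for explicit words. -/

set_option autoImplicit false

namespace Pool.Agent.Work.MP_0d14d1_co

/-- a digit in base 128 -/
def dg (s p : ℕ) : ℕ := s / 128 ^ p % 128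

/-- the map of places given by the first `M` digits -/
def ap (M s p : ℕ) : ℕ := if p < M then dg s p else p

/-- evaluate, then continue -/
def fz (x : ℕ) (f : ℕ → ℕ) : ℕ := Nat.rec (f 0) (fun n _ => f (Nat.succ n)) x

/-- exchange two neighbouring digits -/
def sx1 (s P x : ℕ) : ℕ :=
  Nat.add (Nat.mod s P) (Nat.mul P (Nat.add (Nat.mod (Nat.div x (nat_lit 128)) (nat_lit 128))
    (Nat.mul (nat_lit 128) (Nat.add (Nat.mod x (nat_lit 128)) (Nat.mul (nat_lit 128)
    (Nat.div x (nat_lit 16384)))))))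

/-- exchange two neighbouring digits -/
def sx (M i s : ℕ) : ℕ :=
  @Bool.rec (fun _ => ℕ) s (sx1 s (Nat.pow (nat_lit 128) i) (Nat.div s (Nat.pow (nat_lit 128) i)))
    (Nat.ble (Nat.add i (nat_lit 2)) M)

/-- one instruction -/
def st (M c s : ℕ) : ℕ :=
  @Bool.rec (fun _ => ℕ) (sx M (Nat.succ c) (sx M (Nat.pred c) (sx M c s))) (sx M c s)
    (Nat.beq (Nat.mod c (nat_lit 2)) (nat_lit 0))

/-- `n` instructions -/
def run (M n : ℕ) : ℕ → ℕ → ℕ :=
  Nat.rec (fun _ s => s) (fun _ ih w s => fz (st M (Nat.mod w (nat_lit 128)) s) fun t =>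
    fz (Nat.div w (nat_lit 128)) fun v => ih v t) n

/-- the cost of `n` instructions -/
def cst (n : ℕ) : ℕ → ℕ → ℕ :=
  Nat.rec (fun _ e => e) (fun _ ih w e => fz (Nat.add e (Nat.mod w (nat_lit 2))) fun t =>
    fz (Nat.div w (nat_lit 128)) fun v => ih v t) n

/-- the first `M` digits are the values of `f` -/
def dgs (s : ℕ) (f : ℕ → ℕ) (M : ℕ) : ℕ :=
  Nat.rec 0 (fun p ih => bif Nat.beq (dg s p) (f p) then ih else 1) M

/-- the check -/
def chk (M n w s E : ℕ) (f g : ℕ → ℕ) : Bool :=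
  Nat.beq (dgs s f M + fz (run M n w s) (fun t => dgs t g M) + (cst n w 0 - E)) 0

theorem fz_eq (x : ℕ) (f : ℕ → ℕ) : fz x f = f x := by cases x <;> rfl

theorem dg_add {a i : ℕ} (h : a < 128 ^ i) (r p : ℕ) :
    dg (a + 128 ^ i * r) p = if p < i then dg a p else dg r (p - i) := by
  unfold dg
  split_ifs with hp
  · obtain ⟨k, rfl⟩ := Nat.exists_eq_add_of_lt hp
    rw [add_assoc, pow_add, mul_assoc, Nat.add_mul_div_left _ _ (by positivity), pow_succ',
      mul_assoc, Nat.add_mul_mod_self_left]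
  · obtain ⟨k, rfl⟩ := Nat.exists_eq_add_of_le (not_lt.1 hp)
    rw [Nat.add_sub_cancel_left, pow_add, ← Nat.div_div_eq_div_mul,
      Nat.add_mul_div_left _ _ (by positivity), Nat.div_eq_of_lt h, zero_add]

theorem dg_sx {M i : ℕ} (h : i + 1 < M) (s p : ℕ) : dg (sx M i s) p = dg s (sw i p) := by
  have d : ∀ q, dg s q < 128 ^ 1 := fun q => Nat.mod_lt _ (by norm_num)
  have d0 : ∀ q, dg (dg s q) 0 = dg s q := fun q => by simp [dg]
  have e : Nat.ble (i + 2) M = true := Nat.ble_eq_true_of_le h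
  have a1 := dg_add (d (i + 1)) (dg s i + 128 * (s / 128 ^ (i + 2))) (p - i)
  have a2 := dg_add (d i) (s / 128 ^ (i + 2)) (p - i - 1)
  rw [pow_one] at a1 a2
  have e1 : sx1 s (128 ^ i) (s / 128 ^ i) = s % 128 ^ i + 128 ^ i * (dg s (i + 1) + 128 *
      (dg s i + 128 * (s / 128 ^ (i + 2)))) := by
    rw [dg, dg, pow_succ, pow_add _ i 2, ← Nat.div_div_eq_div_mul, ← Nat.div_div_eq_div_mul]
    rfl
  have e2 : sx M i s = @Bool.rec (fun _ => ℕ) s (sx1 s (128 ^ i) (s / 128 ^ i))
    (Nat.ble (i + 2) M) := rfl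
  rw [e2, e, e1]
  dsimp only
  rw [dg_add (Nat.mod_lt _ (by positivity)), a1, a2, sw]
  rcases lt_trichotomy p i with hp | rfl | hp
  · rw [if_pos hp, if_neg (by omega), if_neg (by omega)]
    have := dg_add (Nat.mod_lt s (show 0 < 128 ^ i by positivity)) (s / 128 ^ i) p
    rwa [Nat.mod_add_div, if_pos hp, eq_comm] at this
  · simp [d0]
  · rw [if_neg (by omega), if_neg (by omega), if_neg hp.ne']
    split_ifs with h1 h2 h2
    · rw [show p - i - 1 = 0 by omega, d0]
    · omega
    · omega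
    · rw [dg, dg, Nat.div_div_eq_div_mul, ← pow_add, show i + 2 + (p - i - 1 - 1) = p by omega]

theorem sx_W (M i s : ℕ) : ∃ u, W M (i % 2) u ∧ ap M s ∘ u = ap M (sx M i s) := by
  by_cases h : i + 1 < M
  · refine ⟨_, W.sw h, funext fun p => ?_⟩
    simp only [Function.comp_apply, ap, dg_sx h, sw]
    split_ifs <;> first | rfl | omega
  · have e : Nat.ble (i + 2) M = false := Bool.eq_false_iff.2 fun k => h (Nat.le_of_ble_eq_true k)
    exact ⟨id, .id _, by rw [sx, show Nat.ble (Nat.add i (nat_lit 2)) M = false from e]; rfl⟩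

theorem st_W (M c s : ℕ) : ∃ u, W M (c % 2) u ∧ ap M s ∘ u = ap M (st M c s) := by
  have e0 : st M c s = @Bool.rec (fun _ => ℕ) (sx M (c + 1) (sx M (c - 1) (sx M c s))) (sx M c s)
    (Nat.beq (c % 2) 0) := rfl
  rw [e0]
  cases e : Nat.beq (c % 2) 0
  · have := Nat.ne_of_beq_eq_false e
    obtain ⟨u, a1, a2⟩ := sx_W M c s
    obtain ⟨v, b1, b2⟩ := sx_W M (c - 1) (sx M c s)
    obtain ⟨w, c1, c2⟩ := sx_W M (c + 1) (sx M (c - 1) (sx M c s))
    refine ⟨_, ((a1.comp b1).comp c1).cast (by omega) fun _ => rfl, ?_⟩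
    dsimp only
    rw [← c2, ← b2, ← a2]
    rfl
  · exact sx_W M c s

theorem run_W (M n w s e : ℕ) :
    ∃ u E, W M E u ∧ E + e = cst n w e ∧ ap M s ∘ u = ap M (run M n w s) := by
  induction n generalizing w s e with
  | zero => exact ⟨id, 0, .id 0, zero_add _, rfl⟩
  | succ n ih =>
    have e1 : run M (n + 1) w s = fz (st M (w % 128) s) fun t =>
      fz (w / 128) fun v => run M n v t := rfl
    have e2 : cst (n + 1) w e = fz (e + w % 2) fun t => fz (w / 128) fun v => cst n v t := rfl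
    simp only [fz_eq] at e1 e2
    obtain ⟨u, a1, a2⟩ := st_W M (w % 128) s
    obtain ⟨v, E, b1, b2, b3⟩ := ih (w / 128) (st M (w % 128) s) (e + w % 2)
    refine ⟨_, _, a1.comp b1, by omega, ?_⟩
    rw [e1, ← b3, ← a2]
    rfl

theorem dgs_eq {s M : ℕ} {f : ℕ → ℕ} (h : dgs s f M = 0) (p : ℕ) (hp : p < M) : dg s p = f p := by
  induction M with
  | zero => omega
  | succ M ih =>
    have e : dgs s f (M + 1) = bif Nat.beq (dg s M) (f M) then dgs s f M else 1 := rfl
    cases k : Nat.beq (dg s M) (f M) <;> rw [e, k] at h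
    · simp at h
    · rcases Nat.lt_succ_iff_lt_or_eq.1 hp with hp | rfl
      · exact ih h hp
      · exact Nat.eq_of_beq_eq_true k

theorem chk_W {M n w s E : ℕ} {f g : ℕ → ℕ} (h : chk M n w s E f g = true)
    (hf : ∀ p, M ≤ p → f p = p) (hg : ∀ p, M ≤ p → g p = p) :
    ∃ u, W M E u ∧ ∀ p, f (u p) = g p := by
  have h := Nat.eq_of_beq_eq_true h
  rw [fz_eq] at h
  obtain ⟨u, E', a1, a2, a3⟩ := run_W M n w s 0
  have k : ∀ {s : ℕ} {f : ℕ → ℕ}, dgs s f M = 0 → (∀ p, M ≤ p → f p = p) → ap M s = f :=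
    fun h1 h2 => funext fun p => by
      unfold ap
      split_ifs with hp
      · exact dgs_eq h1 p hp
      · exact (h2 p (not_lt.1 hp)).symm
  rw [k (f := f) (by omega) hf, k (f := g) (by omega) hg] at a3
  exact ⟨u, a1.cast (by omega) fun _ => rfl, congrFun a3⟩

end Pool.Agent.Work.MP_0d14d1_co
end

-- merged part: Pool.Agent.Work.MP_0d14d1_co.Tri
section
/-! Layers, cycles, sweeps and triangles. -/

set_option autoImplicit false

namespace Pool.Agent.Work.MP_0d14d1_co

/-- `m` disjoint transpositions -/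
def Ly (lo m p : ℕ) : ℕ :=
  if lo ≤ p ∧ p < lo + 2 * m then (if (p - lo) % 2 = 0 then p + 1 else p - 1) else p

/-- one wire moves to the right -/
def cr (a m p : ℕ) : ℕ := if a ≤ p ∧ p < a + m then p + 1 else if p = a + m then a else p

/-- one wire moves to the left -/
def cl (m p : ℕ) : ℕ := if p = 0 then m else if p ≤ m then p - 1 else p

/-- the tails of `q` sweeps -/
def Rot (q d p : ℕ) : ℕ :=
  if p % 2 = 1 ∧ p < 2 * (q + d) then (if p < 2 * d then p + 2 * q else p - 2 * d) else p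

/-- `q` sweeps on `m` bins -/
def St (q m p : ℕ) : ℕ :=
  if p < 2 * q then 2 * p + 1 else if p % 2 = 0 ∨ 2 * m ≤ p then p else
    if p + 2 * q < 2 * m then p + 2 * q else 2 * m - 1 - p

/-- all the sweeps on `m` bins -/
def Tri (m p : ℕ) : ℕ :=
  if p < m then 2 * p + 1 else if p % 2 = 0 ∨ 2 * m ≤ p then p else 2 * m - 1 - p

/-- three layers, parallelogram -/
def Pl (n p : ℕ) : ℕ :=
  if p % 2 = 1 then (if p < 2 * n then p + 3 else if p = 2 * n + 1 then p - 2 else p) else
    if p = 0 ∨ 2 * n + 2 < p then p else if p = 2 ∨ p = 2 * n + 2 then p - 1 else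
      if p = 4 then 2 else p - 3

/-- three layers, trapezoid -/
def Dt (b p : ℕ) : ℕ :=
  if p % 2 = 1 then (if p + 3 < 2 * b then p + 3 else if p + 3 = 2 * b then p + 2 else
    if p + 1 = 2 * b then p + 1 else p) else
    if p = 0 ∨ 2 * b < p then p else if p = 2 then 1 else if p = 4 then 2 else p - 3

/-- what remains of the reversal when four neighbouring wires are removed -/
def kap (h p : ℕ) : ℕ := Pl h (rv (2 * h + 4) p)

theorem sh_s (d : ℕ) (f : ℕ → ℕ) (p : ℕ) :
    (p < d ∧ sh d f p = p) ∨ (d ≤ p ∧ sh d f p = f (p - d) + d) := by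
  unfold sh
  split_ifs <;> repeat (first | (left; omega) | right | omega)

theorem sw_s (i p : ℕ) : (p = i ∧ sw i p = i + 1) ∨ (p = i + 1 ∧ sw i p = i) ∨
    ((p < i ∨ i + 1 < p) ∧ sw i p = p) := by
  unfold sw
  split_ifs <;> repeat (first | (left; omega) | right | omega)

theorem rv_s (n p : ℕ) : (p < n ∧ rv n p + p + 1 = n) ∨ (n ≤ p ∧ rv n p = p) := by
  unfold rv
  split_ifs <;> repeat (first | (left; omega) | right | omega)

theorem Ly_s (lo m p : ℕ) : (lo ≤ p ∧ p < lo + 2 * m ∧ (p + lo) % 2 = 0 ∧ Ly lo m p = p + 1) ∨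
    (lo ≤ p ∧ p < lo + 2 * m ∧ (p + lo) % 2 = 1 ∧ Ly lo m p + 1 = p) ∨
    ((p < lo ∨ lo + 2 * m ≤ p) ∧ Ly lo m p = p) := by
  unfold Ly
  split_ifs <;> repeat (first | (left; omega) | right | omega)

theorem cr_s (a m p : ℕ) : (a ≤ p ∧ p < a + m ∧ cr a m p = p + 1) ∨ (p = a + m ∧ cr a m p = a) ∨
    ((p < a ∨ a + m < p) ∧ cr a m p = p) := by
  unfold cr
  split_ifs <;> repeat (first | (left; omega) | right | omega)

theorem cl_s (m p : ℕ) : (p = 0 ∧ cl m p = m) ∨ (0 < p ∧ p ≤ m ∧ cl m p + 1 = p) ∨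
    (m < p ∧ cl m p = p) := by
  unfold cl
  by_cases h : p = 0
  · simp [h]
  · rw [if_neg h]
    split_ifs <;> repeat (first | (left; omega) | right | omega)

theorem Rot_s (q d p : ℕ) : (p % 2 = 1 ∧ p < 2 * d ∧ Rot q d p = p + 2 * q) ∨
    (p % 2 = 1 ∧ 2 * d ≤ p ∧ p < 2 * (q + d) ∧ Rot q d p + 2 * d = p) ∨
    ((p % 2 = 0 ∨ 2 * (q + d) ≤ p) ∧ Rot q d p = p) := by
  unfold Rot
  split_ifs <;> repeat (first | (left; omega) | right | omega)

theorem St_s (q m p : ℕ) : (p < 2 * q ∧ St q m p = 2 * p + 1) ∨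
    (2 * q ≤ p ∧ (p % 2 = 0 ∨ 2 * m ≤ p) ∧ St q m p = p) ∨
    (2 * q ≤ p ∧ p % 2 = 1 ∧ p + 2 * q < 2 * m ∧ St q m p = p + 2 * q) ∨
    (2 * q ≤ p ∧ p % 2 = 1 ∧ p < 2 * m ∧ 2 * m ≤ p + 2 * q ∧ St q m p + p + 1 = 2 * m) := by
  unfold St
  split_ifs <;> repeat (first | (left; omega) | right | omega)

theorem Tri_s (m p : ℕ) : (p < m ∧ Tri m p = 2 * p + 1) ∨
    (m ≤ p ∧ (p % 2 = 0 ∨ 2 * m ≤ p) ∧ Tri m p = p) ∨
    (m ≤ p ∧ p % 2 = 1 ∧ p < 2 * m ∧ Tri m p + p + 1 = 2 * m) := by
  unfold Tri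
  split_ifs <;> repeat (first | (left; omega) | right | omega)

theorem Pl_s {n : ℕ} (hn : 2 ≤ n) (p : ℕ) : (p % 2 = 1 ∧ p < 2 * n ∧ Pl n p = p + 3) ∨
    (p % 2 = 0 ∧ 6 ≤ p ∧ p ≤ 2 * n ∧ Pl n p + 3 = p) ∨
    ((p = 0 ∨ 2 * n + 2 < p) ∧ Pl n p = p) ∨ ((p = 2 ∨ p = 2 * n + 2) ∧ Pl n p + 1 = p) ∨
    ((p = 4 ∨ p = 2 * n + 1) ∧ Pl n p + 2 = p) := by
  unfold Pl
  split_ifs <;> repeat (first | (left; omega) | right | omega)

theorem Dt_s {b : ℕ} (_hb : 3 ≤ b) (p : ℕ) : (p % 2 = 1 ∧ p + 3 < 2 * b ∧ Dt b p = p + 3) ∨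
    (p % 2 = 0 ∧ 6 ≤ p ∧ p ≤ 2 * b ∧ Dt b p + 3 = p) ∨
    ((p = 0 ∨ 2 * b < p) ∧ Dt b p = p) ∨ (p = 2 ∧ Dt b p = 1) ∨ (p = 4 ∧ Dt b p = 2) ∨
    (p + 3 = 2 * b ∧ Dt b p = p + 2) ∨ (p + 1 = 2 * b ∧ Dt b p = p + 1) := by
  unfold Dt
  split_ifs <;> repeat (first | (left; omega) | right | omega)

theorem W_Ly {N a m : ℕ} (h : 2 * a + 2 * m ≤ N) : W N 0 (Ly (2 * a) m) := by
  induction m with
  | zero => exact (W.id 0).cast le_rfl fun p => by have := Ly_s (2 * a) 0 p; unfold id; omega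
  | succ m ih =>
    refine ((ih (by omega)).step (2 * a + 2 * m) (by omega)).cast (by omega) fun p => ?_
    have := sw_s (2 * a + 2 * m) p
    have := Ly_s (2 * a) m (sw (2 * a + 2 * m) p)
    have := Ly_s (2 * a) (m + 1) p
    rw [Function.comp_apply]
    omega

theorem W_cr {N a m : ℕ} (h : a + m < N) : W N ((a + m) / 2 - a / 2) (cr a m) := by
  induction m with
  | zero => exact (W.id 0).cast (by omega) fun p => by have := cr_s a 0 p; unfold id; omega
  | succ m ih =>
    refine ((ih (by omega)).step (a + m) (by omega)).cast (by omega) fun p => ?_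
    have := sw_s (a + m) p
    have := cr_s a m (sw (a + m) p)
    have := cr_s a (m + 1) p
    rw [Function.comp_apply]
    omega

theorem W_cl {N m : ℕ} (h : m < N) : W N (m / 2) (cl m) := by
  refine (W.cancel ((W.id 0).cast le_rfl fun p => ?_) (W_cr (a := 0) (m := m) (by omega))).cast
    (by omega) fun _ => rfl
  have := cr_s 0 m p
  have := cl_s m (cr 0 m p)
  rw [Function.comp_apply, id]
  omega

theorem W_Rot (q d : ℕ) : W (2 * (q + d)) (q * d) (Rot q d) := by
  induction q with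
  | zero => exact (W.id 0).cast (by omega) fun p => by have := Rot_s 0 d p; unfold id; omega
  | succ q ih =>
    refine ((((ih.shift 1).mono (by omega)).comp (W_Ly (a := 1) (m := d) (by omega))).comp
      (W_cr (a := 1) (m := 2 * d) (by omega))).cast (by rw [add_mul]; omega) fun p => ?_
    simp only [Function.comp_apply]
    have := Rot_s q d (Ly (2 * 1) d (cr 1 (2 * d) p) - 2 * 1)
    have := sh_s (2 * 1) (Rot q d) (Ly (2 * 1) d (cr 1 (2 * d) p))
    have := Ly_s (2 * 1) d (cr 1 (2 * d) p)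
    have := Rot_s (q + 1) d p
    have := cr_s 1 (2 * d) p
    omega

theorem W_ext {m E : ℕ} {g : ℕ → ℕ} (h : W (2 * m) E (Tri m ∘ g)) (a : ℕ) :
    W (2 * (m + 2 * a)) (E + a * (m + a)) (Tri (m + 2 * a) ∘ sh (2 * a) g) := by
  induction a with
  | zero => exact h.cast (by omega) fun p => by simp [sh]
  | succ a ih =>
    refine (((W_Ly (a := 0) (m := m + 2 * a + 2) (by omega)).comp
      (W_cr (a := 1) (m := 2 * (m + 2 * a + 1)) (by omega))).comp
      ((ih.shift 1).mono (by omega))).cast (by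
        have : (a + 1) * (m + (a + 1)) = a * (m + a) + m + 2 * a + 1 := by ring
        omega) fun p => ?_
    simp only [Function.comp_apply, sh_comp, sh_sh]
    rw [show 2 * 1 + 2 * a = 2 * (a + 1) by ring]
    generalize sh (2 * (a + 1)) g p = x
    obtain ⟨y, hy⟩ : ∃ y, y = sh (2 * 1) (Tri (m + 2 * a)) x := ⟨_, rfl⟩
    have := Ly_s (2 * 0) (m + 2 * a + 2) (cr 1 (2 * (m + 2 * a + 1)) y)
    have := cr_s 1 (2 * (m + 2 * a + 1)) y
    have := Tri_s (m + 2 * (a + 1)) x
    have := Tri_s (m + 2 * a) (x - 2 * 1)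
    have := sh_s (2 * 1) (Tri (m + 2 * a)) x
    rw [← hy]
    omega

theorem St_Rot {q w : ℕ} (h : 2 * q ≤ w) (d p : ℕ) :
    St q w (sh (2 * (w - q)) (Rot q d) p) = St q (w + d) p := by
  have := St_s q (w + d) p
  have := St_s q w (sh (2 * (w - q)) (Rot q d) p)
  have := Rot_s q d (p - 2 * (w - q))
  have := sh_s (2 * (w - q)) (Rot q d) p
  omega

theorem St_St {q r m : ℕ} (h : 2 * r ≤ m) (p : ℕ) :
    St q (2 * q + m) (sh (2 * q) (St r m) p) = St (q + r) (2 * q + m) p := by
  have := St_s (q + r) (2 * q + m) p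
  have := St_s q (2 * q + m) (sh (2 * q) (St r m) p)
  have := St_s r m (p - 2 * q)
  have := sh_s (2 * q) (St r m) p
  omega

theorem St_Tri (q m p : ℕ) : St q (2 * q + m) (sh (2 * q) (Tri m) p) = Tri (2 * q + m) p := by
  have := Tri_s (2 * q + m) p
  have := St_s q (2 * q + m) (sh (2 * q) (Tri m) p)
  have := Tri_s m (p - 2 * q)
  have := sh_s (2 * q) (Tri m) p
  omega

theorem Pl_Pl {n q : ℕ} (hn : 2 ≤ n) (hq : 2 ≤ q) (p : ℕ) :
    Pl n (sh (2 * n) (Pl q) p) = Pl (n + q) p := by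
  have := Pl_s (n := n + q) (by omega) p
  have := Pl_s hn (sh (2 * n) (Pl q) p)
  have := Pl_s hq (p - 2 * n)
  have := sh_s (2 * n) (Pl q) p
  omega

theorem Pl_Dt {n b : ℕ} (hn : 2 ≤ n) (hb : 3 ≤ b) (p : ℕ) :
    Pl n (sh (2 * n) (Dt b) p) = Dt (n + b) p := by
  have := Dt_s (b := n + b) (by omega) p
  have := Pl_s hn (sh (2 * n) (Dt b) p)
  have := Dt_s hb (p - 2 * n)
  have := sh_s (2 * n) (Dt b) p
  omega

theorem Dt_kap {b c : ℕ} (hb : 2 ≤ b) (hc : 2 ≤ c) (p : ℕ) :
    sh (2 * b) (Dt (c + 1)) (kap (b + c) p) =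
      rv (2 * (b + c) + 4) (sh (2 * c) (Dt (b + 1)) p) := by
  unfold kap
  have := rv_s (2 * (b + c) + 4) (sh (2 * c) (Dt (b + 1)) p)
  have := Dt_s (b := c + 1) (by omega) (Pl (b + c) (rv (2 * (b + c) + 4) p) - 2 * b)
  have := sh_s (2 * b) (Dt (c + 1)) (Pl (b + c) (rv (2 * (b + c) + 4) p))
  have := Pl_s (n := b + c) (by omega) (rv (2 * (b + c) + 4) p)
  have := Dt_s (b := b + 1) (by omega) (p - 2 * c)
  have := sh_s (2 * c) (Dt (b + 1)) p
  have := rv_s (2 * (b + c) + 4) p
  omega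

theorem Tri_kap {h : ℕ} (hh : 2 ≤ h) (p : ℕ) :
    sh 4 (Tri h) (Ly (2 * ((h + 5) / 2)) (h / 2) (rv (h + 4) p)) = kap h (sh 4 (Tri h) p) := by
  unfold kap
  have := Pl_s hh (rv (2 * h + 4) (sh 4 (Tri h) p))
  have := rv_s (2 * h + 4) (sh 4 (Tri h) p)
  have := Tri_s h ((Ly (2 * ((h + 5) / 2)) (h / 2) (rv (h + 4) p)) - 4)
  have := sh_s 4 (Tri h) (Ly (2 * ((h + 5) / 2)) (h / 2) (rv (h + 4) p))
  have := Ly_s (2 * ((h + 5) / 2)) (h / 2) (rv (h + 4) p)
  have := Tri_s h (p - 4)
  have := sh_s 4 (Tri h) p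
  have := rv_s (h + 4) p
  omega

/-- two wires pass -/
def U2 (h y : ℕ) : ℕ := sw 2 (cl (2 * h + 5) (cr 4 (2 * h + 2) y))

/-- three wires pass -/
def U3 (h y : ℕ) : ℕ := sw 0 (cl (2 * h + 3) (U2 h y))

theorem U2_s (h y : ℕ) : (y = 0 ∧ U2 h y = 2 * h + 5) ∨ (0 < y ∧ y < 3 ∧ U2 h y + 1 = y) ∨
    (3 ≤ y ∧ y ≤ 2 * h + 4 ∧ U2 h y = y) ∨ (y = 2 * h + 5 ∧ U2 h y = y + 1) ∨
    (y = 2 * h + 6 ∧ U2 h y = 2) ∨ (2 * h + 6 < y ∧ U2 h y = y) := by
  unfold U2
  have := sw_s 2 (cl (2 * h + 5) (cr 4 (2 * h + 2) y))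
  have := cl_s (2 * h + 5) (cr 4 (2 * h + 2) y)
  have := cr_s 4 (2 * h + 2) y
  have : y = 0 ∨ (0 < y ∧ y < 3) ∨ (3 ≤ y ∧ y ≤ 2 * h + 4) ∨ y = 2 * h + 5 ∨ y = 2 * h + 6 ∨
    2 * h + 6 < y := by omega
  rcases this with k | k | k | k | k | k <;> repeat (first | (left; omega) | right | omega)

theorem U3_s (h y : ℕ) : (y = 0 ∧ U3 h y = 2 * h + 5) ∨ (y = 1 ∧ U3 h y = 2 * h + 3) ∨
    (2 ≤ y ∧ y ≤ 2 * h + 3 ∧ U3 h y + 1 = y) ∨ (y = 2 * h + 4 ∧ U3 h y = y) ∨
    (y = 2 * h + 5 ∧ U3 h y = y + 1) ∨ (y = 2 * h + 6 ∧ U3 h y = 0) ∨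
    (2 * h + 6 < y ∧ U3 h y = y) := by
  unfold U3
  have := sw_s 0 (cl (2 * h + 3) (U2 h y))
  have := cl_s (2 * h + 3) (U2 h y)
  have := U2_s h y
  have : y = 0 ∨ y = 1 ∨ (2 ≤ y ∧ y ≤ 2 * h + 3) ∨ y = 2 * h + 4 ∨ y = 2 * h + 5 ∨
    y = 2 * h + 6 ∨ 2 * h + 6 < y := by omega
  rcases this with k | k | k | k | k | k | k <;> repeat (first | (left; omega) | right | omega)

theorem k41 {h : ℕ} (hh : 2 ≤ h) (p : ℕ) :
    Ly 2 h (sw 0 (cl (2 * h + 3) (Ly 4 h (sw 2 (cl (2 * h + 5) (Ly 6 h (cr 4 (2 * h + 2)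
      (sh 2 (kap h) (sw 1 (sw 0 (sw 2 p))))))))))) = rv (2 * h + 7) p := by
  have s0 : ∀ z, sh 2 (Pl h) z = Ly 5 h (Ly 4 h (Ly 3 h z)) := fun z => by
    have := Ly_s 5 h (Ly 4 h (Ly 3 h z))
    have := Ly_s 4 h (Ly 3 h z)
    have := Pl_s hh (z - 2)
    have := sh_s 2 (Pl h) z
    have := Ly_s 3 h z
    omega
  have s1 : ∀ z, Ly 6 h (cr 4 (2 * h + 2) (Ly 5 h z)) = cr 4 (2 * h + 2) z := fun z => by
    have := Ly_s 6 h (cr 4 (2 * h + 2) (Ly 5 h z))
    have := cr_s 4 (2 * h + 2) (Ly 5 h z)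
    have := cr_s 4 (2 * h + 2) z
    have := Ly_s 5 h z
    omega
  have s2 : ∀ z, Ly 4 h (U2 h (Ly 4 h z)) = U2 h z := fun z => by
    have := Ly_s 4 h (U2 h (Ly 4 h z))
    have := U2_s h (Ly 4 h z)
    have := U2_s h z
    have := Ly_s 4 h z
    omega
  have s3 : ∀ z, Ly 2 h (U3 h (Ly 3 h z)) = U3 h z := fun z => by
    have := Ly_s 2 h (U3 h (Ly 3 h z))
    have := U3_s h (Ly 3 h z)
    have := U3_s h z
    have := Ly_s 3 h z
    omega
  have e : kap h = Pl h ∘ rv (2 * h + 4) := rfl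
  rw [e, sh_comp, s0, s1, ← U2, s2, ← U3, s3]
  have := U3_s h (sh 2 (rv (2 * h + 4)) (sw 1 (sw 0 (sw 2 p))))
  have := rv_s (2 * h + 4) (sw 1 (sw 0 (sw 2 p)) - 2)
  have := sh_s 2 (rv (2 * h + 4)) (sw 1 (sw 0 (sw 2 p)))
  have := rv_s (2 * h + 7) p
  have := sw_s 1 (sw 0 (sw 2 p))
  have := sw_s 0 (sw 2 p)
  have := sw_s 2 p
  omega
end Pool.Agent.Work.MP_0d14d1_co
end
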